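import Mathlib

set_option autoImplicit false

namespace Pool.Agent.Lib.MP_46e774_pr

open MeasureTheory

/-- `IsKaryChain k lt A`: the elements of `A` are the vertices of a rooted tree in which every
vertex has at most `k` children, and `lt x y` holds whenever `y` is a (proper) descendant of `x`.
The rooted tree on the vertex set `A` is given by its root and its parent map; the root is its own
parent, every vertex reaches the root by iterating the parent map, the children of `x` are the
`y ≠ root` with parent `x`, and the descendants of `x` are the `y` that reach `x` by iterating the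
parent map. -/
def IsKaryChain {U : Type*} (k : ℕ) (lt : U → U → Prop) (A : Set U) : Prop :=
  ∃ (root : A) (parent : A → A), parent root = root ∧
    (∀ y : A, ∃ m : ℕ, parent^[m] y = root) ∧
    (∀ x : A, {y : A | y ≠ root ∧ parent y = x}.encard ≤ k) ∧
    (∀ x y : A, y ≠ x → (∃ m : ℕ, parent^[m] y = x) → lt x y)

/-- The `k`-width: the least number of classes in a partition of `U` into `k`-ary chains. -/
noncomputable def kWidth {U : Type*} [Fintype U] [DecidableEq U] (k : ℕ) (lt : U → U → Prop) : ℕ :=
  sInf {m : ℕ | ∃ P : Finpartition (Finset.univ : Finset U),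
    P.parts.card = m ∧ ∀ A ∈ P.parts, IsKaryChain k lt (A : Set U)}

/-- The strict order of the poset `Q_S` of a sequence `S` of closed intervals `[a, b]`, each given
as the pair `(a, b)`: `i` is below `j` iff `i < j` and `b_i ≤ a_j`. -/
def seqPrec {n : ℕ} (S : Fin n → ℝ × ℝ) (i j : Fin n) : Prop :=
  i < j ∧ (S i).2 ≤ (S j).1

/-- The interval with end points `p.1` and `p.2`, as a pair (left end point, right end point). -/
noncomputable def toInterval (p : ℝ × ℝ) : ℝ × ℝ := (min p.1 p.2, max p.1 p.2)

/-- The law of a pair of independent uniform random variables on `(0,1)`. -/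
noncomputable def unifPair : Measure (ℝ × ℝ) :=
  (volume.restrict (Set.Ioo (0 : ℝ) 1)).prod (volume.restrict (Set.Ioo (0 : ℝ) 1))

/-- The law of a sequence of `n` independent pairs of independent uniform random variables. -/
noncomputable def seqLaw (n : ℕ) : Measure (Fin n → ℝ × ℝ) := Measure.pi fun _ => unifPair

/-- The `k`-width of the poset of the sequence of intervals spanned by the pairs `ω i`. -/
noncomputable def randWidth (k : ℕ) {n : ℕ} (ω : Fin n → ℝ × ℝ) : ℕ :=
  kWidth k (seqPrec fun i => toInterval (ω i))

end Pool.Agent.Lib.MP_46e774_pr
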