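import Mathlib
import Pool.Agent.Lib.MP_46e774_pr.Defs

set_option autoImplicit false

namespace Pool.Agent.Lib.MP_46e774_pr

open Finset

section lower

variable {U : Type*} [Fintype U] [DecidableEq U]

/-- In a k-ary chain, all but one element of `J` has its parent in `N`. -/
lemma chain_count {k : ℕ} {lt : U → U → Prop} {A : Finset U} (h : IsKaryChain k lt (A : Set U))
    (J N : Finset U) (hJN : ∀ j ∈ J, ∀ i, lt i j → i ∈ N) :
    (J ∩ A).card ≤ 1 + k * (N ∩ A).card := by
  classical
  obtain ⟨root, parent, hroot, hreach, hch, hdesc⟩ := h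
  have hne : ∀ y : (A : Set U), y ≠ root → parent y ≠ y := by
    intro y hy hyy
    obtain ⟨m, hm⟩ := hreach y
    have : parent^[m] y = y := Function.iterate_fixed hyy m
    exact hy (this.symm.trans hm)
  have hlt : ∀ y : (A : Set U), y ≠ root → lt (parent y : U) (y : U) := by
    intro y hy
    exact hdesc (parent y) y (fun h => hne y hy h.symm) ⟨1, rfl⟩
  -- parent as a map on U
  let p : U → U := fun u => if h : u ∈ A then (parent ⟨u, h⟩ : U) else u
  have hp : ∀ (u : U) (h : u ∈ A), p u = (parent ⟨u, h⟩ : U) := fun u h => by simp [p, h]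
  have h1 : ((J ∩ A).erase (root : U)).card ≤ k * (N ∩ A).card := by
    have hmaps : ∀ u ∈ (J ∩ A).erase (root : U), p u ∈ N ∩ A := by
      intro u hu
      rw [mem_erase, mem_inter] at hu
      obtain ⟨hur, huJ, huA⟩ := hu
      rw [mem_inter, hp u huA]
      refine ⟨hJN u huJ _ (hlt ⟨u, huA⟩ ?_), (parent ⟨u, huA⟩).2⟩
      intro h
      exact hur (congrArg Subtype.val h)
    refine card_le_mul_card_image_of_maps_to hmaps k ?_
    intro i hi
    have hiA : i ∈ A := (mem_inter.mp hi).2
    have h2 := hch ⟨i, hiA⟩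
    have h3 : (((((J ∩ A).erase (root : U)).filter fun u => p u = i).card : ℕ) : ℕ∞) ≤
        {y : (A : Set U) | y ≠ root ∧ parent y = ⟨i, hiA⟩}.encard := by
      rw [← Set.encard_coe_eq_coe_finsetCard, ← Subtype.val_injective.encard_image]
      apply Set.encard_le_encard
      intro u hu
      simp only [coe_filter, mem_erase, mem_inter, Set.mem_ofPred_eq] at hu
      obtain ⟨⟨hur, huJ, huA⟩, hpu⟩ := hu
      refine ⟨⟨u, huA⟩, ⟨?_, ?_⟩, rfl⟩
      · intro h
        exact hur (congrArg Subtype.val h)
      · apply Subtype.ext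
        rw [← hp u huA]
        exact hpu
    exact_mod_cast h3.trans h2
  have h2 : (J ∩ A).card - 1 ≤ ((J ∩ A).erase (root : U)).card := pred_card_le_card_erase
  omega

theorem lower_partition {k : ℕ} {lt : U → U → Prop} (P : Finpartition (univ : Finset U))
    (hP : ∀ A ∈ P.parts, IsKaryChain k lt (A : Set U))
    (J N : Finset U) (hJN : ∀ j ∈ J, ∀ i, lt i j → i ∈ N) :
    J.card ≤ P.parts.card + k * N.card := by
  classical
  have hsum : ∀ S : Finset U, S.card = ∑ A ∈ P.parts, (S ∩ A).card := by
    intro S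
    have h1 : S = P.parts.biUnion fun A => S ∩ A := by
      ext u
      simp only [mem_biUnion, mem_inter]
      constructor
      · intro hu
        obtain ⟨A, hA, huA⟩ := P.exists_mem (mem_univ u)
        exact ⟨A, hA, hu, huA⟩
      · rintro ⟨A, _, hu, _⟩
        exact hu
    conv_lhs => rw [h1]
    apply card_biUnion
    intro A hA B hB hAB
    have := P.disjoint hA hB hAB
    exact Finset.disjoint_of_subset_left inter_subset_right
      (Finset.disjoint_of_subset_right inter_subset_right this)
  rw [hsum J, hsum N, mul_sum, card_eq_sum_ones, ← sum_add_distrib]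
  exact sum_le_sum fun A hA => chain_count (hP A hA) J N hJN

lemma singleton_chain (k : ℕ) (lt : U → U → Prop) (u : U) :
    IsKaryChain k lt (({u} : Finset U) : Set U) := by
  have hsub : ∀ x y : ((({u} : Finset U) : Set U)), x = y := by
    rintro ⟨x, hx⟩ ⟨y, hy⟩
    apply Subtype.ext
    simp only [coe_singleton, Set.mem_singleton_iff] at hx hy
    exact hx.trans hy.symm
  refine ⟨⟨u, by simp⟩, id, rfl, fun y => ⟨0, hsub _ _⟩, ?_, fun x y h => absurd (hsub y x) h⟩
  intro x
  have : {y : ((({u} : Finset U) : Set U)) | y ≠ ⟨u, by simp⟩ ∧ id y = x} = ∅ := by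
    ext y
    simp only [Set.mem_ofPred_eq, Set.mem_empty_iff_false, iff_false, not_and]
    intro h
    exact absurd (hsub _ _) h
  rw [this]
  simp

lemma width_set_nonempty (k : ℕ) (lt : U → U → Prop) :
    {m : ℕ | ∃ P : Finpartition (Finset.univ : Finset U),
      P.parts.card = m ∧ ∀ A ∈ P.parts, IsKaryChain k lt (A : Set U)}.Nonempty := by
  refine ⟨_, ⊥, rfl, ?_⟩
  intro A hA
  rw [Finpartition.mem_bot_iff] at hA
  obtain ⟨a, _, rfl⟩ := hA
  exact singleton_chain k lt a

theorem kWidth_le_card (k : ℕ) (lt : U → U → Prop) : kWidth k lt ≤ Fintype.card U := by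
  apply Nat.sInf_le
  refine ⟨⊥, ?_, ?_⟩
  · rw [Finpartition.card_bot]
    rfl
  · intro A hA
    rw [Finpartition.mem_bot_iff] at hA
    obtain ⟨a, _, rfl⟩ := hA
    exact singleton_chain k lt a

theorem lower_kWidth {k : ℕ} {lt : U → U → Prop}
    (J N : Finset U) (hJN : ∀ j ∈ J, ∀ i, lt i j → i ∈ N) :
    J.card ≤ kWidth k lt + k * N.card := by
  obtain ⟨P, hP, hc⟩ := Nat.sInf_mem (width_set_nonempty k lt)
  have := lower_partition P hc J N hJN
  rw [hP] at this
  exact this

end lower

section upper

/-- Hall type upper bound for the `k`-width of an order on `Fin n` compatible with the indices. -/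
theorem kWidth_le {n k d : ℕ} {lt : Fin n → Fin n → Prop} (hlt : ∀ i j, lt i j → i < j)
    (htr : ∀ i j l, lt i j → lt j l → lt i l)
    (hd : ∀ J N : Finset (Fin n), (∀ i, i ∈ N ↔ ∃ j ∈ J, lt i j) → J.card ≤ k * N.card + d) :
    kWidth k lt ≤ d := by
  classical
  let t : Fin n → Finset ((Fin n × Fin k) ⊕ Fin d) := fun j =>
    ((univ.filter fun i => lt i j) ×ˢ univ).disjSum univ
  have hall : ∀ s : Finset (Fin n), s.card ≤ (s.biUnion t).card := by
    intro s
    rcases s.eq_empty_or_nonempty with rfl | ⟨j0, hj0⟩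
    · simp
    let N : Finset (Fin n) := univ.filter fun i => ∃ j ∈ s, lt i j
    have hN : ∀ i, i ∈ N ↔ ∃ j ∈ s, lt i j := fun i => by simp [N]
    have hsub : (N ×ˢ (univ : Finset (Fin k))).disjSum (univ : Finset (Fin d)) ⊆ s.biUnion t := by
      intro x hx
      rw [mem_biUnion]
      rcases x with ⟨i, c⟩ | e
      · rw [inl_mem_disjSum, mem_product] at hx
        obtain ⟨j, hj, hij⟩ := (hN i).mp hx.1
        exact ⟨j, hj, by simp [t, hij]⟩
      · exact ⟨j0, hj0, by simp [t]⟩
    have h1 := card_le_card hsub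
    rw [card_disjSum, card_product] at h1
    simp only [card_univ, Fintype.card_fin] at h1
    have h2 := hd s N hN
    have h3 : k * N.card = N.card * k := mul_comm _ _
    omega
  obtain ⟨f, hf, hft⟩ := (Finset.all_card_le_biUnion_card_iff_exists_injective t).mp hall
  let par : Fin n → Fin n := fun j => Sum.elim (fun p => p.1) (fun _ => j) (f j)
  have hpar : ∀ j, (par j = j ∧ ∃ e, f j = Sum.inr e) ∨ (lt (par j) j ∧ ∃ c, f j = Sum.inl (par j, c)) := by
    intro j
    have h1 := hft j
    rcases hfj : f j with ⟨i, c⟩ | e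
    · right
      have h2 : par j = i := by simp [par, hfj]
      rw [hfj] at h1
      simp only [t, inl_mem_disjSum, mem_product, mem_filter, mem_univ, true_and, and_true] at h1
      rw [h2]
      exact ⟨h1, c, rfl⟩
    · left
      exact ⟨by simp [par, hfj], e, rfl⟩
  have hle : ∀ j, par j ≤ j := by
    intro j
    rcases hpar j with ⟨h, _⟩ | ⟨h, _⟩
    · rw [h]
    · exact (hlt _ _ h).le
  have hfix : ∀ m : ℕ, ∀ j : Fin n, (j : ℕ) ≤ m → par (par^[m] j) = par^[m] j := by
    intro m
    induction m with
    | zero =>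
      intro j hj
      simp only [Function.iterate_zero, id_eq]
      apply le_antisymm (hle j)
      rw [Fin.le_def]
      omega
    | succ m ih =>
      intro j hj
      rw [Function.iterate_succ_apply]
      by_cases h : par j = j
      · rw [h]
        have : par^[m] j = j := Function.iterate_fixed h m
        rw [this, h]
      · apply ih
        have h2 : par j < j := lt_of_le_of_ne (hle j) h
        rw [Fin.lt_def] at h2
        omega
  let ρ : Fin n → Fin n := fun j => par^[n] j
  have hρfix : ∀ j, par (ρ j) = ρ j := fun j => hfix n j j.2.le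
  have hρpar : ∀ j, ρ (par j) = ρ j := by
    intro j
    show par^[n] (par j) = par^[n] j
    rw [← Function.iterate_succ_apply, Function.iterate_succ_apply']
    exact hρfix j
  have hρid : ∀ j, par j = j → ρ j = j := fun j h => Function.iterate_fixed h n
  let P : Finpartition (univ : Finset (Fin n)) := Finpartition.ofSetoid (Setoid.ker ρ)
  let roots : Finset (Fin n) := univ.filter fun j => par j = j
  have hroots : roots.card ≤ d := by
    have h1 : ∀ j ∈ roots, ∃ e : Fin d, f j = Sum.inr e := by
      intro j hj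
      rw [mem_filter] at hj
      rcases hpar j with ⟨_, h⟩ | ⟨h, _⟩
      · exact h
      · exact absurd hj.2 (hlt _ _ h).ne
    have h2 : roots.card ≤
        ((∅ : Finset (Fin n × Fin k)).disjSum (univ : Finset (Fin d))).card := by
      apply card_le_card_of_injOn f _ hf.injOn
      intro j hj
      obtain ⟨e, he⟩ := h1 j hj
      rw [mem_coe, he]
      simp
    simpa using h2
  have hparts : ∀ A ∈ P.parts, ∃ r ∈ roots, r ∈ A ∧ ∀ y, y ∈ A ↔ ρ y = r := by
    intro A hA
    obtain ⟨a, haA⟩ := P.nonempty_of_mem_parts hA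
    have hPa : P.part a = A := P.part_eq_of_mem hA haA
    have hmem : ∀ y, y ∈ A ↔ ρ y = ρ a := by
      intro y
      rw [← hPa]
      rw [Finpartition.mem_part_ofSetoid_iff_rel]
      exact eq_comm
    refine ⟨ρ a, by simp [roots, hρfix], ?_, hmem⟩
    rw [hmem]
    exact hρid _ (hρfix a)
  have hcard : P.parts.card ≤ d := by
    refine le_trans ?_ hroots
    refine le_trans (card_le_card (?_ : P.parts ⊆ roots.image P.part)) card_image_le
    intro A hA
    obtain ⟨r, hr, hrA, _⟩ := hparts A hA
    rw [mem_image]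
    exact ⟨r, hr, P.part_eq_of_mem hA hrA⟩
  refine le_trans (Nat.sInf_le ⟨P, rfl, ?_⟩) hcard
  intro A hA
  obtain ⟨r, hr, hrA, hmem⟩ := hparts A hA
  have hparA : ∀ y : ↥(↑A : Set (Fin n)), par y ∈ (A : Set (Fin n)) := by
    intro y
    rw [mem_coe, hmem, hρpar, ← hmem]
    exact y.2
  let parent : ↥(↑A : Set (Fin n)) → ↥(↑A : Set (Fin n)) := fun y => ⟨par y, hparA y⟩
  have hiter : ∀ (m : ℕ) (y : ↥(↑A : Set (Fin n))),
      (parent^[m] y : Fin n) = par^[m] (y : Fin n) := by
    intro m
    induction m with
    | zero => intro y; rfl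
    | succ m ih =>
      intro y
      rw [Function.iterate_succ_apply, Function.iterate_succ_apply, ih]
  have hrr : par r = r := (mem_filter.mp hr).2
  refine ⟨⟨r, hrA⟩, parent, Subtype.ext hrr, ?_, ?_, ?_⟩
  · intro y
    refine ⟨n, Subtype.ext ?_⟩
    rw [hiter]
    exact (hmem y).mp y.2
  · intro x
    have h1 : {y : ↥(↑A : Set (Fin n)) | y ≠ ⟨r, hrA⟩ ∧ parent y = x}.encard ≤
        (((({(x : Fin n)} : Finset (Fin n)) ×ˢ (univ : Finset (Fin k))).disjSum
          (∅ : Finset (Fin d)) : Finset ((Fin n × Fin k) ⊕ Fin d)) :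
            Set ((Fin n × Fin k) ⊕ Fin d)).encard := by
      have h2 : ∀ y ∈ {y : ↥(↑A : Set (Fin n)) | y ≠ ⟨r, hrA⟩ ∧ parent y = x},
          ∃ c : Fin k, f y = Sum.inl ((x : Fin n), c) := by
        rintro y ⟨hy1, hy2⟩
        have hy3 : par (y : Fin n) = x := congrArg Subtype.val hy2
        rcases hpar y with ⟨h, _⟩ | ⟨_, c, hc⟩
        · exfalso
          apply hy1
          apply Subtype.ext
          have h3 := (hmem y).mp y.2
          rw [hρid _ h] at h3
          exact h3
        · rw [hy3] at hc
          exact ⟨c, hc⟩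
      refine Set.encard_le_encard_of_injOn (f := fun y : ↥(↑A : Set (Fin n)) => f y) ?_ ?_
      · intro y hy
        obtain ⟨c, hc⟩ := h2 y hy
        show f y ∈ _
        rw [hc]
        simp
      · intro a _ b _ hab
        exact Subtype.ext (hf hab)
    rw [Set.encard_coe_eq_coe_finsetCard] at h1
    simpa using h1
  · rintro x y hne ⟨m, hm⟩
    -- ancestors are below
    have key : ∀ (m : ℕ) (z : Fin n), par^[m] z = z ∨ lt (par^[m] z) z := by
      intro m
      induction m with
      | zero => intro z; left; rfl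
      | succ m ih =>
        intro z
        rw [Function.iterate_succ_apply]
        rcases hpar z with ⟨h, _⟩ | ⟨h, _⟩
        · rw [h]
          exact ih z
        · right
          rcases ih (par z) with h2 | h2
          · rw [h2]
            exact h
          · exact htr _ _ _ h2 h
    have h2 := key m y
    rw [← hiter, hm] at h2
    rcases h2 with h2 | h2
    · exact absurd (Subtype.ext h2.symm) hne
    · exact h2

end upper

end Pool.Agent.Lib.MP_46e774_pr
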