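import Mathlib
import Pool.Agent.Lib.MP_46e774_pr.Comb

set_option autoImplicit false

namespace Pool.Agent.Lib.MP_46e774_pr

open Finset

/-- number of indices in block `j` (blocks of length `L`) with `f i ≤ l / M`. -/
noncomputable def cnt {n : ℕ} (L M : ℕ) (f : Fin n → ℝ) (j l : ℕ) : ℕ :=
  (univ.filter fun i : Fin n => (i : ℕ) / L = j ∧ f i ≤ (l : ℝ) / M).card

/-- size of block `j`. -/
def blk (n L j : ℕ) : ℕ := (univ.filter fun i : Fin n => (i : ℕ) / L = j).card

lemma blk_le {n L : ℕ} (hL : 0 < L) (j : ℕ) : blk n L j ≤ L := by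
  have h1 : ((univ.filter fun i : Fin n => (i : ℕ) / L = j).image (fun i : Fin n => (i : ℕ))) ⊆
      Finset.Ico (j * L) (j * L + L) := by
    intro m hm
    rw [mem_image] at hm
    obtain ⟨i, hi, rfl⟩ := hm
    rw [mem_filter] at hi
    rw [mem_Ico]
    have h2 := hi.2
    rw [Nat.div_eq_iff hL] at h2
    constructor
    · rw [mul_comm]; rw [mul_comm] at h2; omega
    · rw [mul_comm]; rw [mul_comm] at h2; omega
  have h3 := card_le_card h1
  rw [card_image_of_injective _ Fin.val_injective] at h3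
  simpa [blk] using h3

lemma sum_blk {n L M : ℕ} (hL : 0 < L) (hn : n ≤ M * L) : ∑ j ∈ range M, blk n L j = n := by
  have : (univ : Finset (Fin n)).card = ∑ j ∈ range M,
      ((univ : Finset (Fin n)).filter fun i : Fin n => (i : ℕ) / L = j).card := by
    apply card_eq_sum_card_fiberwise
    intro i _
    simp only [coe_range, Set.mem_Iio]
    rw [Nat.div_lt_iff_lt_mul hL]
    exact lt_of_lt_of_le i.2 hn
  simpa [blk] using this.symm

lemma disc {n L M : ℕ} (hL : 0 < L) (hM : 0 < M) (hn : n ≤ M * L) (a b : Fin n → ℝ)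
    (ha : ∀ i, 0 ≤ a i ∧ a i ≤ 1) (hb : ∀ i, 0 < b i) (J N : Finset (Fin n))
    (hN : ∀ i, i ∈ N ↔ ∃ j ∈ J, i < j ∧ b i ≤ a j) :
    ∃ l : ℕ → ℕ, Antitone l ∧ (∀ j, l j ≤ M) ∧
      J.card ≤ ∑ j ∈ range M, cnt L M a j (l j) ∧
      ∑ j ∈ range M, cnt L M b j (l (j + 1) - 1) ≤ N.card := by
  classical
  let c : Fin n → ℕ := fun i => ⌈(M : ℝ) * a i⌉₊
  have hMR : (0 : ℝ) < M := by exact_mod_cast hM
  have hcM : ∀ i, c i ≤ M := by
    intro i
    apply Nat.ceil_le.mpr
    have := (ha i).2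
    nlinarith
  let l : ℕ → ℕ := fun j => (J.filter fun i : Fin n => j ≤ (i : ℕ) / L).sup c
  have hlanti : Antitone l := by
    intro j j' hjj
    apply Finset.sup_mono
    intro i hi
    rw [mem_filter] at hi ⊢
    exact ⟨hi.1, hjj.trans hi.2⟩
  have hlM : ∀ j, l j ≤ M := fun j => Finset.sup_le fun i _ => hcM i
  have hblock : ∀ i : Fin n, (i : ℕ) / L ∈ range M := by
    intro i
    rw [mem_range, Nat.div_lt_iff_lt_mul hL]
    exact lt_of_lt_of_le i.2 hn
  refine ⟨l, hlanti, hlM, ?_, ?_⟩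
  · rw [card_eq_sum_card_fiberwise (f := fun i : Fin n => (i : ℕ) / L) (t := range M)
      (fun i _ => hblock i)]
    apply sum_le_sum
    intro j _
    apply card_le_card
    intro i hi
    rw [mem_filter] at hi
    rw [mem_filter]
    refine ⟨mem_univ _, hi.2, ?_⟩
    have h1 : c i ≤ l j := Finset.le_sup (f := c) (mem_filter.mpr ⟨hi.1, hi.2.ge⟩)
    have h2 : (M : ℝ) * a i ≤ c i := Nat.le_ceil _
    have h3 : (c i : ℝ) ≤ l j := by exact_mod_cast h1
    rw [le_div_iff₀ hMR]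
    linarith
  · rw [card_eq_sum_card_fiberwise (s := N) (f := fun i : Fin n => (i : ℕ) / L) (t := range M)
      (fun i _ => hblock i)]
    apply sum_le_sum
    intro j _
    apply card_le_card
    intro i hi
    rw [mem_filter] at hi ⊢
    obtain ⟨_, hij, hbi⟩ := hi
    refine ⟨?_, hij⟩
    rw [hN]
    have hpos : 0 < l (j + 1) - 1 := by
      by_contra h0
      have h1 : l (j + 1) - 1 = 0 := by omega
      rw [h1] at hbi
      have := hb i
      simp at hbi
      linarith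
    have hne : (J.filter fun i : Fin n => j + 1 ≤ (i : ℕ) / L).Nonempty := by
      rw [Finset.nonempty_iff_ne_empty]
      intro h0
      have h1 : l (j + 1) = 0 := by
        show (J.filter fun i : Fin n => j + 1 ≤ (i : ℕ) / L).sup c = 0
        rw [h0]
        rfl
      omega
    obtain ⟨i', hi', hci'⟩ := Finset.exists_mem_eq_sup _ hne c
    rw [mem_filter] at hi'
    have hlc : l (j + 1) = c i' := hci'
    refine ⟨i', hi'.1, ?_, ?_⟩
    · rw [Fin.lt_def]
      by_contra h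
      push Not at h
      have := Nat.div_le_div_right (c := L) h
      omega
    · refine hbi.trans ?_
      rw [div_le_iff₀ hMR]
      have h1 : l (j + 1) - 1 < c i' := by omega
      have h2 := Nat.lt_ceil.mp h1
      linarith

/-- The deviation functional. -/
noncomputable def dev {n : ℕ} (k L M : ℕ) (a b : Fin n → ℝ) : ℝ :=
  ∑ j ∈ range M, ∑ l ∈ range (M + 1),
    (|(cnt L M a j l : ℝ) - blk n L j * (2 * ((l : ℝ) / M) - ((l : ℝ) / M) ^ 2)| +
      k * |(cnt L M b j l : ℝ) - blk n L j * ((l : ℝ) / M) ^ 2|)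

lemma dev_nonneg {n : ℕ} (k L M : ℕ) (a b : Fin n → ℝ) : 0 ≤ dev k L M a b := by
  unfold dev
  positivity

lemma disc_bound {n L M k : ℕ} (hL : 0 < L) (hM : 0 < M) (hn : n ≤ M * L) (a b : Fin n → ℝ)
    (ha : ∀ i, 0 ≤ a i ∧ a i ≤ 1) (hb : ∀ i, 0 < b i) (J N : Finset (Fin n))
    (hN : ∀ i, i ∈ N ↔ ∃ j ∈ J, i < j ∧ b i ≤ a j) :
    (J.card : ℝ) ≤ k * N.card + ((n : ℝ) / (k + 1) + 4 * k * L + dev k L M a b) := by
  obtain ⟨l, hlanti, hlM, hJ, hNc⟩ := disc hL hM hn a b ha hb J N hN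
  have hMR : (0 : ℝ) < M := by exact_mod_cast hM
  have hLR : (0 : ℝ) < L := by exact_mod_cast hL
  have hkR : (0 : ℝ) ≤ k := Nat.cast_nonneg k
  have hJ' : (J.card : ℝ) ≤ ∑ j ∈ range M, (cnt L M a j (l j) : ℝ) := by exact_mod_cast hJ
  have hN' : ∑ j ∈ range M, (cnt L M b j (l (j + 1) - 1) : ℝ) ≤ N.card := by exact_mod_cast hNc
  -- abbreviations
  set x : ℕ → ℝ := fun j => (l j : ℝ) / M with hx
  set y : ℕ → ℝ := fun j => ((l (j + 1) - 1 : ℕ) : ℝ) / M with hy
  have hx0 : ∀ j, 0 ≤ x j := fun j => by positivity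
  have hx1 : ∀ j, x j ≤ 1 := fun j => by
    rw [hx]
    simp only
    rw [div_le_one hMR]
    exact_mod_cast hlM j
  have hy0 : ∀ j, 0 ≤ y j := fun j => by positivity
  have hyx : ∀ j, y j ≤ x j := fun j => by
    simp only [hx, hy]
    apply div_le_div_of_nonneg_right _ hMR.le
    have h1 := hlanti (Nat.le_succ j)
    have h2 : l (j + 1) - 1 ≤ l j := by
      have : l (Nat.succ j) ≤ l j := h1
      have h3 : l (j + 1) = l (Nat.succ j) := rfl
      omega
    exact_mod_cast h2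
  have hxy : ∀ j, x j - y j ≤ ((l j : ℝ) - l (j + 1) + 1) / M := fun j => by
    simp only [hx, hy]
    rw [← sub_div]
    apply div_le_div_of_nonneg_right _ hMR.le
    have h1 : (l (j + 1) : ℝ) ≤ ((l (j + 1) - 1 : ℕ) : ℝ) + 1 := by
      have : l (j + 1) ≤ (l (j + 1) - 1) + 1 := by omega
      exact_mod_cast this
    linarith
  -- deviations
  have hdev : ∑ j ∈ range M, (|(cnt L M a j (l j) : ℝ) - blk n L j * (2 * x j - x j ^ 2)| +
      k * |(cnt L M b j (l (j + 1) - 1) : ℝ) - blk n L j * y j ^ 2|) ≤ dev k L M a b := by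
    unfold dev
    apply sum_le_sum
    intro j _
    rw [sum_add_distrib]
    apply add_le_add
    · exact single_le_sum
        (f := fun l : ℕ => |(cnt L M a j l : ℝ) - blk n L j * (2 * ((l : ℝ) / M) - ((l : ℝ) / M) ^ 2)|)
        (fun _ _ => abs_nonneg _) (mem_range.mpr (Nat.lt_succ_of_le (hlM j)))
    · refine single_le_sum
        (f := fun l : ℕ => (k : ℝ) * |(cnt L M b j l : ℝ) - blk n L j * ((l : ℝ) / M) ^ 2|)
        (fun _ _ => by positivity) (mem_range.mpr ?_)
      have := hlM (j + 1)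
      omega
  -- deterministic part
  have hdet : ∑ j ∈ range M, (blk n L j : ℝ) * (2 * x j - x j ^ 2 - k * y j ^ 2) ≤
      (n : ℝ) / (k + 1) + 4 * k * L := by
    have h1 : ∀ j ∈ range M, (blk n L j : ℝ) * (2 * x j - x j ^ 2 - k * y j ^ 2) ≤
        (blk n L j : ℝ) * (1 / (k + 1)) + 2 * k * L * (((l j : ℝ) - l (j + 1) + 1) / M) := by
      intro j _
      have hS : (0 : ℝ) ≤ blk n L j := Nat.cast_nonneg _
      have hSL : (blk n L j : ℝ) ≤ L := by exact_mod_cast blk_le hL j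
      have h2 : 2 * x j - x j ^ 2 - k * x j ^ 2 ≤ 1 / (k + 1) := by
        rw [le_div_iff₀ (by positivity)]
        nlinarith [sq_nonneg ((k + 1) * x j - 1)]
      have h3 : x j ^ 2 - y j ^ 2 ≤ 2 * (x j - y j) := by
        have := hx1 j
        have := hyx j
        have := hy0 j
        nlinarith
      have h4 := hxy j
      have h5 : 0 ≤ x j - y j := by linarith [hyx j]
      have h6 : (blk n L j : ℝ) * (k * (x j ^ 2 - y j ^ 2)) ≤
          2 * k * L * (((l j : ℝ) - l (j + 1) + 1) / M) := by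
        calc (blk n L j : ℝ) * (k * (x j ^ 2 - y j ^ 2))
            ≤ (blk n L j : ℝ) * (k * (2 * (x j - y j))) := by gcongr
          _ ≤ L * (k * (2 * (x j - y j))) := by gcongr
          _ = 2 * k * L * (x j - y j) := by ring
          _ ≤ 2 * k * L * (((l j : ℝ) - l (j + 1) + 1) / M) := by gcongr
      have h7 : (blk n L j : ℝ) * (2 * x j - x j ^ 2 - k * x j ^ 2) ≤
          (blk n L j : ℝ) * (1 / (k + 1)) := mul_le_mul_of_nonneg_left h2 hS
      nlinarith
    refine (sum_le_sum h1).trans ?_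
    rw [sum_add_distrib, ← sum_mul, ← mul_sum, ← sum_div]
    have h8 : ∑ j ∈ range M, (blk n L j : ℝ) = n := by exact_mod_cast sum_blk hL hn
    have h9 : ∑ j ∈ range M, ((l j : ℝ) - l (j + 1) + 1) = (l 0 : ℝ) - l M + M := by
      rw [sum_add_distrib, sum_range_sub']
      simp
    rw [h8, h9]
    have h10 : ((l 0 : ℝ) - l M + M) / M ≤ 2 := by
      rw [div_le_iff₀ hMR]
      have : (l 0 : ℝ) ≤ M := by exact_mod_cast hlM 0
      have h11 : (0 : ℝ) ≤ l M := Nat.cast_nonneg _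
      linarith
    have h12 : 2 * (k : ℝ) * L * (((l 0 : ℝ) - l M + M) / M) ≤ 2 * k * L * 2 := by
      apply mul_le_mul_of_nonneg_left h10
      positivity
    have h13 : (n : ℝ) * (1 / (k + 1)) = n / (k + 1) := by ring
    linarith
  have hcomb : ∑ j ∈ range M, (cnt L M a j (l j) : ℝ) -
      k * ∑ j ∈ range M, (cnt L M b j (l (j + 1) - 1) : ℝ) ≤
      ∑ j ∈ range M, (blk n L j : ℝ) * (2 * x j - x j ^ 2 - k * y j ^ 2) +
      ∑ j ∈ range M, (|(cnt L M a j (l j) : ℝ) - blk n L j * (2 * x j - x j ^ 2)| +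
        k * |(cnt L M b j (l (j + 1) - 1) : ℝ) - blk n L j * y j ^ 2|) := by
    rw [mul_sum, ← sum_sub_distrib, ← sum_add_distrib]
    apply sum_le_sum
    intro j _
    have h1 := le_abs_self ((cnt L M a j (l j) : ℝ) - blk n L j * (2 * x j - x j ^ 2))
    have h2 := neg_abs_le ((cnt L M b j (l (j + 1) - 1) : ℝ) - blk n L j * y j ^ 2)
    have h3 := mul_le_mul_of_nonneg_left h2 hkR
    nlinarith
  have h4 : (k : ℝ) * ∑ j ∈ range M, (cnt L M b j (l (j + 1) - 1) : ℝ) ≤ k * N.card :=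
    mul_le_mul_of_nonneg_left hN' hkR
  linarith

/-- Upper bound for the `k`-width of the poset of a sequence of intervals. -/
theorem kWidth_seq_le {n L M k : ℕ} (hL : 0 < L) (hM : 0 < M) (hn : n ≤ M * L)
    (S : Fin n → ℝ × ℝ) (hab : ∀ i, (S i).1 ≤ (S i).2)
    (ha : ∀ i, 0 < (S i).1 ∧ (S i).1 ≤ 1) :
    (kWidth k (seqPrec S) : ℝ) ≤ (n : ℝ) / (k + 1) + 4 * k * L +
      dev k L M (fun i => (S i).1) (fun i => (S i).2) := by
  set R : ℝ := (n : ℝ) / (k + 1) + 4 * k * L +
      dev k L M (fun i => (S i).1) (fun i => (S i).2) with hR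
  have hR0 : 0 ≤ R := by
    have := dev_nonneg k L M (fun i => (S i).1) (fun i => (S i).2)
    positivity
  have h1 : kWidth k (seqPrec S) ≤ ⌊R⌋₊ := by
    apply kWidth_le
    · rintro i j ⟨h, _⟩
      exact h
    · rintro i j l ⟨h1, h2⟩ ⟨h3, h4⟩
      exact ⟨h1.trans h3, h2.trans ((hab j).trans h4)⟩
    · intro J N hN
      have h2 := disc_bound (k := k) hL hM hn (fun i => (S i).1) (fun i => (S i).2)
        (fun i => ⟨(ha i).1.le, (ha i).2⟩) (fun i => lt_of_lt_of_le (ha i).1 (hab i)) J N hN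
      rw [← hR] at h2
      have h3 : ((J.card : ℝ) - k * N.card) ≤ R := by linarith
      by_cases h4 : J.card ≤ k * N.card
      · exact h4.trans (Nat.le_add_right _ _)
      · push Not at h4
        have h5 : J.card - k * N.card ≤ ⌊R⌋₊ := by
          apply Nat.le_floor
          rw [Nat.cast_sub h4.le]
          push_cast
          exact h3
        omega
  calc (kWidth k (seqPrec S) : ℝ) ≤ (⌊R⌋₊ : ℝ) := by exact_mod_cast h1
    _ ≤ R := Nat.floor_le hR0

end Pool.Agent.Lib.MP_46e774_pr
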