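import Mathlib
import Pool.Agent.Lib.MP_46e774_pr.Disc

set_option autoImplicit false

namespace Pool.Agent.Lib.MP_46e774_pr

open MeasureTheory ProbabilityTheory

/-- uniform law on (0,1) -/
noncomputable abbrev unif : Measure ℝ := volume.restrict (Set.Ioo (0 : ℝ) 1)

instance : IsProbabilityMeasure unif := ⟨by simp [unif]⟩

instance : IsProbabilityMeasure unifPair := by
  unfold unifPair
  infer_instance

instance (n : ℕ) : IsProbabilityMeasure (seqLaw n) := by
  unfold seqLaw
  infer_instance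

lemma unif_Iic {x : ℝ} (h1 : x ≤ 1) : unif (Set.Iic x) = ENNReal.ofReal x := by
  rw [Measure.restrict_apply measurableSet_Iic]
  apply le_antisymm
  · calc volume (Set.Iic x ∩ Set.Ioo (0 : ℝ) 1) ≤ volume (Set.Icc 0 x) := by
          apply measure_mono
          rintro y ⟨hy1, hy2⟩
          exact ⟨hy2.1.le, hy1⟩
      _ = ENNReal.ofReal x := by simp
  · calc ENNReal.ofReal x = volume (Set.Ioo 0 x) := by simp
      _ ≤ volume (Set.Iic x ∩ Set.Ioo (0 : ℝ) 1) := by
          apply measure_mono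
          rintro y ⟨hy1, hy2⟩
          exact ⟨hy2.le, hy1, hy2.trans_le h1⟩

lemma unif_Ioi {x : ℝ} (h0 : 0 ≤ x) :
    unif (Set.Ioi x) = ENNReal.ofReal (1 - x) := by
  rw [Measure.restrict_apply measurableSet_Ioi]
  apply le_antisymm
  · calc volume (Set.Ioi x ∩ Set.Ioo (0 : ℝ) 1) ≤ volume (Set.Icc x 1) := by
          apply measure_mono
          rintro y ⟨hy1, hy2⟩
          exact ⟨le_of_lt hy1, hy2.2.le⟩
      _ = ENNReal.ofReal (1 - x) := by simp
  · calc ENNReal.ofReal (1 - x) = volume (Set.Ioo x 1) := by simp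
      _ ≤ volume (Set.Ioi x ∩ Set.Ioo (0 : ℝ) 1) := by
          apply measure_mono
          rintro y ⟨hy1, hy2⟩
          exact ⟨hy1, h0.trans_lt hy1, hy2⟩

/-- left end point at most `x` -/
def EA (x : ℝ) : Set (ℝ × ℝ) := {p | (toInterval p).1 ≤ x}

/-- right end point at most `x` -/
def EB (x : ℝ) : Set (ℝ × ℝ) := {p | (toInterval p).2 ≤ x}

lemma measurable_toInterval : Measurable toInterval := by
  unfold toInterval
  exact (measurable_fst.min measurable_snd).prodMk (measurable_fst.max measurable_snd)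

lemma measurableSet_EA (x : ℝ) : MeasurableSet (EA x) :=
  measurableSet_le (measurable_fst.comp measurable_toInterval) measurable_const

lemma measurableSet_EB (x : ℝ) : MeasurableSet (EB x) :=
  measurableSet_le (measurable_snd.comp measurable_toInterval) measurable_const

lemma real_EB {x : ℝ} (h0 : 0 ≤ x) (h1 : x ≤ 1) : unifPair.real (EB x) = x ^ 2 := by
  have : EB x = Set.Iic x ×ˢ Set.Iic x := by
    ext p
    simp [EB, toInterval, Prod.le_def]
  rw [Measure.real, this, unifPair, Measure.prod_prod]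
  rw [show volume.restrict (Set.Ioo (0 : ℝ) 1) = unif from rfl, unif_Iic h1]
  rw [← ENNReal.ofReal_mul h0, ENNReal.toReal_ofReal (by positivity)]
  ring

lemma real_EA {x : ℝ} (h0 : 0 ≤ x) (h1 : x ≤ 1) : unifPair.real (EA x) = 2 * x - x ^ 2 := by
  have : (EA x)ᶜ = Set.Ioi x ×ˢ Set.Ioi x := by
    ext p
    simp [EA, toInterval]
  have h2 : unifPair.real (EA x)ᶜ = (1 - x) ^ 2 := by
    rw [Measure.real, this, unifPair, Measure.prod_prod]
    rw [show volume.restrict (Set.Ioo (0 : ℝ) 1) = unif from rfl, unif_Ioi h0]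
    rw [← ENNReal.ofReal_mul (by linarith), ENNReal.toReal_ofReal (by nlinarith)]
    ring
  have h3 := probReal_compl_eq_one_sub (μ := unifPair) (measurableSet_EA x)
  rw [h2] at h3
  linarith

/-- the number of indices in `B` whose coordinate lies in `E`, as a real number -/
noncomputable def cn {n : ℕ} (B : Finset (Fin n)) (E : Set (ℝ × ℝ)) (ω : Fin n → ℝ × ℝ) : ℝ :=
  ∑ i, (if i ∈ B then E.indicator (fun _ => (1 : ℝ)) else 0) (ω i)

lemma cn_eq {n : ℕ} (B : Finset (Fin n)) (E : Set (ℝ × ℝ)) [DecidablePred (· ∈ E)]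
    (ω : Fin n → ℝ × ℝ) : cn B E ω = ((B.filter fun i => ω i ∈ E).card : ℝ) := by
  classical
  rw [Finset.card_filter, cn, Nat.cast_sum, ← Finset.sum_subset (Finset.subset_univ B)]
  · refine Finset.sum_congr rfl fun i hi => ?_
    simp [hi, Set.indicator_apply]
  · intro i _ hi
    simp [hi]

lemma memLp_term {n : ℕ} (B : Finset (Fin n)) {E : Set (ℝ × ℝ)} (hE : MeasurableSet E)
    (i : Fin n) :
    MemLp (if i ∈ B then E.indicator (fun _ => (1 : ℝ)) else 0) 2 unifPair := by
  split_ifs
  · exact (memLp_const 1).indicator hE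
  · exact MemLp.zero

lemma term_bounds {n : ℕ} (B : Finset (Fin n)) (E : Set (ℝ × ℝ)) (i : Fin n) (p : ℝ × ℝ) :
    (if i ∈ B then E.indicator (fun _ => (1 : ℝ)) else 0) p ∈ Set.Icc (0 : ℝ) 1 := by
  split_ifs
  · by_cases h : p ∈ E <;> simp [h]
  · simp

lemma memLp_cn {n : ℕ} (B : Finset (Fin n)) {E : Set (ℝ × ℝ)} (hE : MeasurableSet E) :
    MemLp (cn B E) 2 (seqLaw n) := by
  unfold cn seqLaw
  apply memLp_finsetSum
  intro i _
  exact (memLp_term B hE i).comp_measurePreserving (measurePreserving_eval (fun _ => unifPair) i)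

lemma integral_cn {n : ℕ} (B : Finset (Fin n)) {E : Set (ℝ × ℝ)} (hE : MeasurableSet E) :
    ∫ ω, cn B E ω ∂(seqLaw n) = B.card * unifPair.real E := by
  unfold cn
  rw [integral_finsetSum]
  · have h1 : ∀ i : Fin n, ∫ ω, (if i ∈ B then E.indicator (fun _ => (1 : ℝ)) else 0) (ω i)
        ∂(seqLaw n) = if i ∈ B then unifPair.real E else 0 := by
      intro i
      have hmp := measurePreserving_eval (fun _ : Fin n => unifPair) i
      have h2 : ∫ ω, (if i ∈ B then E.indicator (fun _ => (1 : ℝ)) else 0) (ω i) ∂(seqLaw n) =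
          ∫ p, (if i ∈ B then E.indicator (fun _ => (1 : ℝ)) else 0) p ∂unifPair := by
        rw [← hmp.map_eq, integral_map hmp.measurable.aemeasurable]
        · rfl
        · rw [hmp.map_eq]
          exact (memLp_term B hE i).aestronglyMeasurable
      rw [h2]
      split_ifs
      · rw [integral_indicator hE]
        simp
      · simp
    simp only [h1]
    rw [Finset.sum_ite_mem]
    simp
  · intro i _
    have h3 := (memLp_term B hE i).comp_measurePreserving
      (measurePreserving_eval (fun _ : Fin n => unifPair) i)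
    exact h3.integrable (by norm_num)

lemma abs_dev_le {n : ℕ} (B : Finset (Fin n)) {E : Set (ℝ × ℝ)} (hE : MeasurableSet E) :
    ∫ ω, |cn B E ω - B.card * unifPair.real E| ∂(seqLaw n) ≤ Real.sqrt n := by
  have hvar : Var[cn B E; seqLaw n] ≤ n := by
    have h1 : cn B E = ∑ i : Fin n, fun ω : Fin n → ℝ × ℝ =>
        (if i ∈ B then E.indicator (fun _ => (1 : ℝ)) else 0) (ω i) := by
      funext ω
      simp only [cn, Finset.sum_apply]
    rw [h1, seqLaw, variance_sum_pi (fun i => memLp_term B hE i)]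
    calc ∑ i : Fin n, Var[(if i ∈ B then E.indicator (fun _ => (1 : ℝ)) else 0); unifPair]
        ≤ ∑ _i : Fin n, (1 : ℝ) := by
          apply Finset.sum_le_sum
          intro i _
          refine (variance_le_sq_of_bounded (a := 0) (b := 1)
            (Filter.Eventually.of_forall fun p => term_bounds B E i p)
            (memLp_term B hE i).aestronglyMeasurable.aemeasurable).trans ?_
          norm_num
      _ = n := by simp
  set c : ℝ := B.card * unifPair.real E with hc
  have hW : MemLp (fun ω => cn B E ω - c) 2 (seqLaw n) := (memLp_cn B hE).sub (memLp_const c)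
  have hWabs : MemLp (fun ω => |cn B E ω - c|) 2 (seqLaw n) := hW.abs
  have h2 := variance_nonneg (fun ω => |cn B E ω - c|) (seqLaw n)
  rw [variance_eq_sub hWabs] at h2
  have h3 : Var[cn B E; seqLaw n] = ∫ ω, (cn B E ω - c) ^ 2 ∂(seqLaw n) := by
    rw [variance_eq_integral (memLp_cn B hE).aestronglyMeasurable.aemeasurable, integral_cn B hE]
  have h4 : ∫ ω, ((fun ω => |cn B E ω - c|) ^ 2) ω ∂(seqLaw n) =
      ∫ ω, (cn B E ω - c) ^ 2 ∂(seqLaw n) := by
    congr 1
    funext ω
    simp [sq_abs]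
  rw [h4, ← h3] at h2
  apply Real.le_sqrt_of_sq_le
  linarith

section meas

variable {n : ℕ}

/-- The relation matrix. -/
noncomputable def relMat (ω : Fin n → ℝ × ℝ) : Fin n → Fin n → Prop :=
  seqPrec fun i => toInterval (ω i)

lemma measurable_randWidth (k : ℕ) : Measurable (fun ω : Fin n → ℝ × ℝ => randWidth k ω) := by
  have h1 : Measurable (relMat : (Fin n → ℝ × ℝ) → Fin n → Fin n → Prop) := by
    apply measurable_pi_lambda
    intro i
    apply measurable_pi_lambda
    intro j
    unfold relMat seqPrec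
    apply Measurable.and measurable_const
    apply measurableSet_setOfPred.mp
    apply measurableSet_le
    · exact measurable_snd.comp (measurable_toInterval.comp (measurable_pi_apply i))
    · exact measurable_fst.comp (measurable_toInterval.comp (measurable_pi_apply j))
  have h2 : Measurable (fun r : Fin n → Fin n → Prop => kWidth k r) :=
    measurable_of_countable _
  exact h2.comp h1

lemma integrable_randWidth (k : ℕ) :
    Integrable (fun ω : Fin n → ℝ × ℝ => (randWidth k ω : ℝ)) (seqLaw n) := by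
  apply Integrable.of_bound (C := (n : ℝ))
  · exact (measurable_from_nat.comp (measurable_randWidth k)).aestronglyMeasurable
  · refine Filter.Eventually.of_forall fun ω => ?_
    rw [Real.norm_of_nonneg (Nat.cast_nonneg _)]
    have := kWidth_le_card k (seqPrec fun i => toInterval (ω i))
    rw [Fintype.card_fin] at this
    exact_mod_cast this

end meas

/-- Lower bound for the expected `k`-width. -/
theorem lower_expect (k n : ℕ) :
    (n : ℝ) / (k + 1) ≤ ∫ ω, (randWidth k ω : ℝ) ∂(seqLaw n) := by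
  classical
  have hk : (0 : ℝ) < (k : ℝ) + 1 := by positivity
  set x : ℝ := 1 / ((k : ℝ) + 1) with hx
  have hx0 : 0 ≤ x := by positivity
  have hx1 : x ≤ 1 := by
    rw [hx, div_le_one hk]
    have : (0 : ℝ) ≤ k := Nat.cast_nonneg k
    linarith
  have hpt : ∀ ω : Fin n → ℝ × ℝ,
      cn Finset.univ (EA x) ω - k * cn Finset.univ (EB x) ω ≤ (randWidth k ω : ℝ) := by
    intro ω
    rw [cn_eq, cn_eq]
    have h1 := lower_kWidth (k := k) (lt := seqPrec fun i => toInterval (ω i))
      (Finset.univ.filter fun i => ω i ∈ EA x) (Finset.univ.filter fun i => ω i ∈ EB x) ?_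
    · have h2 : (((Finset.univ.filter fun i => ω i ∈ EA x).card : ℕ) : ℝ) ≤
          (randWidth k ω : ℝ) + k * ((Finset.univ.filter fun i => ω i ∈ EB x).card : ℝ) := by
        exact_mod_cast h1
      linarith
    · intro j hj i hij
      rw [Finset.mem_filter] at hj ⊢
      refine ⟨Finset.mem_univ _, ?_⟩
      have h3 : (toInterval (ω i)).2 ≤ (toInterval (ω j)).1 := hij.2
      exact h3.trans hj.2
  have hintA : Integrable (cn Finset.univ (EA x)) (seqLaw n) :=
    (memLp_cn Finset.univ (measurableSet_EA x)).integrable (by norm_num)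
  have hintB : Integrable (cn Finset.univ (EB x)) (seqLaw n) :=
    (memLp_cn Finset.univ (measurableSet_EB x)).integrable (by norm_num)
  have h4 : ∫ ω, (cn Finset.univ (EA x) ω - (k : ℝ) * cn Finset.univ (EB x) ω) ∂(seqLaw n) ≤
      ∫ ω, (randWidth k ω : ℝ) ∂(seqLaw n) :=
    integral_mono (hintA.sub (hintB.const_mul (k : ℝ))) (integrable_randWidth k)
      (fun ω => hpt ω)
  have h5 : ∫ ω, (cn Finset.univ (EA x) ω - (k : ℝ) * cn Finset.univ (EB x) ω)
      ∂(seqLaw n) = n * (2 * x - x ^ 2) - k * (n * x ^ 2) := by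
    rw [integral_sub hintA (hintB.const_mul (k : ℝ)), integral_const_mul,
      integral_cn _ (measurableSet_EA x), integral_cn _ (measurableSet_EB x), real_EA hx0 hx1,
      real_EB hx0 hx1]
    simp
  rw [h5] at h4
  refine le_trans (le_of_eq ?_) h4
  have hxk : x * ((k : ℝ) + 1) = 1 := by
    rw [hx]
    field_simp
  have h6 : (n : ℝ) / (k + 1) = n * x := by rw [hx]; ring
  rw [h6]
  linear_combination ((n : ℝ) * x) * hxk

/-- The block counts in terms of `cn`. -/
lemma cnt_eq_cn_a {n : ℕ} (L M j l : ℕ) (ω : Fin n → ℝ × ℝ) :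
    (cnt L M (fun i => (toInterval (ω i)).1) j l : ℝ) =
      cn (Finset.univ.filter fun i : Fin n => (i : ℕ) / L = j) (EA ((l : ℝ) / M)) ω := by
  classical
  rw [cn_eq, cnt, Finset.filter_filter]
  rfl

lemma cnt_eq_cn_b {n : ℕ} (L M j l : ℕ) (ω : Fin n → ℝ × ℝ) :
    (cnt L M (fun i => (toInterval (ω i)).2) j l : ℝ) =
      cn (Finset.univ.filter fun i : Fin n => (i : ℕ) / L = j) (EB ((l : ℝ) / M)) ω := by
  classical
  rw [cn_eq, cnt, Finset.filter_filter]
  rfl

lemma integrable_absdev {n : ℕ} (B : Finset (Fin n)) {E : Set (ℝ × ℝ)} (hE : MeasurableSet E)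
    (c : ℝ) : Integrable (fun ω => |cn B E ω - c|) (seqLaw n) :=
  (((memLp_cn B hE).sub (memLp_const c)).abs).integrable (by norm_num)

/-- The expected deviation. -/
theorem dev_expect (k L M n : ℕ) (hM : 0 < M) :
    Integrable (fun ω : Fin n → ℝ × ℝ =>
      dev k L M (fun i => (toInterval (ω i)).1) (fun i => (toInterval (ω i)).2)) (seqLaw n) ∧
    ∫ ω : Fin n → ℝ × ℝ,
      dev k L M (fun i => (toInterval (ω i)).1) (fun i => (toInterval (ω i)).2) ∂(seqLaw n) ≤
      M * (M + 1) * (1 + k) * Real.sqrt n := by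
  have hMR : (0 : ℝ) < M := by exact_mod_cast hM
  let B : ℕ → Finset (Fin n) := fun j => Finset.univ.filter fun i : Fin n => (i : ℕ) / L = j
  have hform : (fun ω : Fin n → ℝ × ℝ =>
      dev k L M (fun i => (toInterval (ω i)).1) (fun i => (toInterval (ω i)).2)) =
      fun ω => ∑ j ∈ Finset.range M, ∑ l ∈ Finset.range (M + 1),
        (|cn (B j) (EA ((l : ℝ) / M)) ω - (B j).card * unifPair.real (EA ((l : ℝ) / M))| +
        k * |cn (B j) (EB ((l : ℝ) / M)) ω - (B j).card * unifPair.real (EB ((l : ℝ) / M))|) := by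
    funext ω
    unfold dev
    refine Finset.sum_congr rfl fun j _ => Finset.sum_congr rfl fun l hl => ?_
    have h0 : (0 : ℝ) ≤ (l : ℝ) / M := by positivity
    have h1 : (l : ℝ) / M ≤ 1 := by
      rw [div_le_one hMR]
      have : l ≤ M := by
        rw [Finset.mem_range] at hl
        omega
      exact_mod_cast this
    rw [cnt_eq_cn_a, cnt_eq_cn_b, real_EA h0 h1, real_EB h0 h1]
    rfl
  rw [hform]
  have hi : ∀ j l : ℕ, Integrable (fun ω =>
      (|cn (B j) (EA ((l : ℝ) / M)) ω - (B j).card * unifPair.real (EA ((l : ℝ) / M))| +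
        k * |cn (B j) (EB ((l : ℝ) / M)) ω - (B j).card * unifPair.real (EB ((l : ℝ) / M))|))
      (seqLaw n) := by
    intro j l
    exact (integrable_absdev _ (measurableSet_EA _) _).add
      ((integrable_absdev _ (measurableSet_EB _) _).const_mul _)
  refine ⟨?_, ?_⟩
  · apply integrable_finsetSum
    intro j _
    apply integrable_finsetSum
    intro l _
    exact hi j l
  · rw [integral_finsetSum _ (fun j _ => integrable_finsetSum _ fun l _ => hi j l)]
    have h2 : ∀ j l : ℕ, ∫ ω,
        (|cn (B j) (EA ((l : ℝ) / M)) ω - (B j).card * unifPair.real (EA ((l : ℝ) / M))| +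
        k * |cn (B j) (EB ((l : ℝ) / M)) ω - (B j).card * unifPair.real (EB ((l : ℝ) / M))|)
        ∂(seqLaw n) ≤ (1 + k) * Real.sqrt n := by
      intro j l
      rw [integral_add (integrable_absdev _ (measurableSet_EA _) _)
        ((integrable_absdev _ (measurableSet_EB _) _).const_mul _), integral_const_mul]
      have h3 := abs_dev_le (B j) (measurableSet_EA ((l : ℝ) / M))
      have h4 := abs_dev_le (B j) (measurableSet_EB ((l : ℝ) / M))
      have h5 := mul_le_mul_of_nonneg_left h4 (Nat.cast_nonneg (α := ℝ) k)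
      linarith
    calc ∑ j ∈ Finset.range M, ∫ ω, ∑ l ∈ Finset.range (M + 1),
        (|cn (B j) (EA ((l : ℝ) / M)) ω - (B j).card * unifPair.real (EA ((l : ℝ) / M))| +
        k * |cn (B j) (EB ((l : ℝ) / M)) ω - (B j).card * unifPair.real (EB ((l : ℝ) / M))|)
        ∂(seqLaw n)
        ≤ ∑ j ∈ Finset.range M, ∑ l ∈ Finset.range (M + 1), (1 + k) * Real.sqrt n := by
          apply Finset.sum_le_sum
          intro j _
          rw [integral_finsetSum _ (fun l _ => hi j l)]
          exact Finset.sum_le_sum fun l _ => h2 j l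
      _ = M * (M + 1) * (1 + k) * Real.sqrt n := by
          simp
          ring

lemma ae_unif : ∀ᵐ x ∂unif, 0 < x ∧ x < 1 := by
  filter_upwards [ae_restrict_mem measurableSet_Ioo] with x hx using hx

lemma ae_unifPair : ∀ᵐ p ∂unifPair, 0 < (toInterval p).1 ∧ (toInterval p).1 ≤ 1 := by
  have h1 : ∀ᵐ p ∂unifPair, 0 < p.1 ∧ p.1 < 1 :=
    (Measure.quasiMeasurePreserving_fst (μ := unif) (ν := unif)).ae ae_unif
  have h2 : ∀ᵐ p ∂unifPair, 0 < p.2 ∧ p.2 < 1 :=
    (Measure.quasiMeasurePreserving_snd (μ := unif) (ν := unif)).ae ae_unif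
  filter_upwards [h1, h2] with p hp1 hp2
  exact ⟨lt_min hp1.1 hp2.1, (min_le_left _ _).trans hp1.2.le⟩

lemma ae_seqLaw (n : ℕ) :
    ∀ᵐ ω ∂(seqLaw n), ∀ i, 0 < (toInterval (ω i)).1 ∧ (toInterval (ω i)).1 ≤ 1 := by
  rw [ae_all_iff]
  intro i
  exact (measurePreserving_eval (fun _ : Fin n => unifPair) i).quasiMeasurePreserving.ae ae_unifPair

/-- Upper bound for the expected `k`-width. -/
theorem upper_expect (k n M : ℕ) (hM : 0 < M) :
    ∫ ω, (randWidth k ω : ℝ) ∂(seqLaw n) ≤
      (n : ℝ) / (k + 1) + 4 * k * ((n : ℝ) / M + 1) + M * (M + 1) * (1 + k) * Real.sqrt n := by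
  have hMR : (0 : ℝ) < M := by exact_mod_cast hM
  set L : ℕ := n / M + 1 with hL
  have hL0 : 0 < L := Nat.succ_pos _
  have hn : n ≤ M * L := by
    rw [hL]
    have := Nat.lt_mul_div_succ n hM
    exact this.le
  obtain ⟨hdi, hde⟩ := dev_expect k L M n hM
  have hae : (fun ω : Fin n → ℝ × ℝ => (randWidth k ω : ℝ)) ≤ᵐ[seqLaw n] fun ω =>
      ((n : ℝ) / (k + 1) + 4 * k * L) +
        dev k L M (fun i => (toInterval (ω i)).1) (fun i => (toInterval (ω i)).2) := by
    filter_upwards [ae_seqLaw n] with ω hω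
    exact kWidth_seq_le hL0 hM hn (fun i => toInterval (ω i)) (fun i => min_le_max) hω
  have h1 : ∫ ω, (randWidth k ω : ℝ) ∂(seqLaw n) ≤ ∫ ω : Fin n → ℝ × ℝ,
      (((n : ℝ) / (k + 1) + 4 * k * L) +
        dev k L M (fun i => (toInterval (ω i)).1) (fun i => (toInterval (ω i)).2)) ∂(seqLaw n) :=
    integral_mono_ae (integrable_randWidth k) ((integrable_const _).add hdi) hae
  have h2 : ∫ ω : Fin n → ℝ × ℝ, (((n : ℝ) / (k + 1) + 4 * k * L) +
        dev k L M (fun i => (toInterval (ω i)).1) (fun i => (toInterval (ω i)).2)) ∂(seqLaw n) =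
      ((n : ℝ) / (k + 1) + 4 * k * L) + ∫ ω : Fin n → ℝ × ℝ,
        dev k L M (fun i => (toInterval (ω i)).1) (fun i => (toInterval (ω i)).2) ∂(seqLaw n) := by
    rw [integral_add (integrable_const _) hdi]
    simp
  rw [h2] at h1
  have h3 : (L : ℝ) ≤ (n : ℝ) / M + 1 := by
    rw [hL]
    push_cast
    have := @Nat.cast_div_le ℝ _ _ _ n M
    linarith
  have h4 : 4 * (k : ℝ) * L ≤ 4 * k * ((n : ℝ) / M + 1) := by
    apply mul_le_mul_of_nonneg_left h3
    positivity
  linarith

/-- The main limit. -/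
theorem tendsto_width (k : ℕ) :
    Filter.Tendsto (fun n : ℕ => (∫ ω, (randWidth k ω : ℝ) ∂(seqLaw n)) / n) Filter.atTop
      (nhds (1 / ((k : ℝ) + 1))) := by
  rw [tendsto_order]
  constructor
  · intro a ha
    filter_upwards [Filter.eventually_gt_atTop 0] with n hn
    have hnR : (0 : ℝ) < n := by exact_mod_cast hn
    have := lower_expect k n
    refine lt_of_lt_of_le ha ?_
    rw [le_div_iff₀ hnR]
    calc 1 / ((k : ℝ) + 1) * n = (n : ℝ) / (k + 1) := by ring
      _ ≤ _ := this
  · intro b hb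
    -- choose M
    obtain ⟨M, hM⟩ := exists_nat_gt (4 * (k : ℝ) / (b - 1 / ((k : ℝ) + 1)))
    have hb' : 0 < b - 1 / ((k : ℝ) + 1) := by linarith
    have hM0 : (0 : ℝ) < (M : ℝ) + 1 := by positivity
    have hM' : 4 * (k : ℝ) / ((M : ℝ) + 1) < b - 1 / ((k : ℝ) + 1) := by
      rw [div_lt_iff₀ hM0]
      rw [div_lt_iff₀ hb'] at hM
      nlinarith
    have hlim : Filter.Tendsto (fun n : ℕ => 1 / ((k : ℝ) + 1) + 4 * k * (1 / ((M : ℝ) + 1) + 1 / (n : ℝ)) +
        ((M : ℝ) + 1) * ((M : ℝ) + 1 + 1) * (1 + k) * (1 / Real.sqrt n)) Filter.atTop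
        (nhds (1 / ((k : ℝ) + 1) + 4 * k * (1 / ((M : ℝ) + 1) + 0) +
        ((M : ℝ) + 1) * ((M : ℝ) + 1 + 1) * (1 + k) * 0)) := by
      have h1 : Filter.Tendsto (fun n : ℕ => 1 / (n : ℝ)) Filter.atTop (nhds 0) :=
        tendsto_one_div_atTop_nhds_zero_nat
      have h2 : Filter.Tendsto (fun n : ℕ => 1 / Real.sqrt n) Filter.atTop (nhds 0) := by
        have h3 : Filter.Tendsto (fun n : ℕ => Real.sqrt (1 / (n : ℝ))) Filter.atTop (nhds 0) := by
          have h4 := (Real.continuous_sqrt.tendsto 0).comp h1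
          rw [Real.sqrt_zero] at h4
          exact h4
        refine h3.congr fun n => ?_
        rw [Real.sqrt_div zero_le_one, Real.sqrt_one]
      exact (tendsto_const_nhds.add ((tendsto_const_nhds.add h1).const_mul _)).add (h2.const_mul _)
    have hlt : 1 / ((k : ℝ) + 1) + 4 * k * (1 / ((M : ℝ) + 1) + 0) +
        ((M : ℝ) + 1) * ((M : ℝ) + 1 + 1) * (1 + k) * 0 < b := by
      have : 4 * (k : ℝ) * (1 / ((M : ℝ) + 1) + 0) = 4 * (k : ℝ) / ((M : ℝ) + 1) := by ring
      rw [this]
      linarith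
    filter_upwards [hlim.eventually_lt_const hlt, Filter.eventually_gt_atTop 0] with n h1 hn
    have hnR : (0 : ℝ) < n := by exact_mod_cast hn
    refine lt_of_le_of_lt ?_ h1
    rw [div_le_iff₀ hnR]
    have h2 := upper_expect k n (M + 1) (Nat.succ_pos M)
    push_cast at h2
    refine h2.trans (le_of_eq ?_)
    have hs : Real.sqrt n = 1 / Real.sqrt n * n := by
      have hs0 : 0 < Real.sqrt n := Real.sqrt_pos.mpr hnR
      field_simp
      exact Real.sq_sqrt hnR.le
    have hs' : 1 / (n : ℝ) * n = 1 := by field_simp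
    calc (n : ℝ) / (k + 1) + 4 * k * ((n : ℝ) / (M + 1) + 1) +
          ((M : ℝ) + 1) * ((M : ℝ) + 1 + 1) * (1 + k) * Real.sqrt n
        = (n : ℝ) / (k + 1) + 4 * k * ((n : ℝ) / (M + 1) + 1 / (n : ℝ) * n) +
          ((M : ℝ) + 1) * ((M : ℝ) + 1 + 1) * (1 + k) * (1 / Real.sqrt n * n) := by
          rw [hs', ← hs]
      _ = _ := by ring

end Pool.Agent.Lib.MP_46e774_pr
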